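import Mathlib

/-!
# Combinatorial core for the alternating point-line orderings

`A l x` means: the point `x` is on the left side of the line `l`.
-/

open Finset

namespace Pool.Agent.Lib.MP_719c39_co

variable {α β : Type*}

/-- The line `l` has points of `X` on both sides. -/
def Splits (A : β → α → Prop) (l : β) (X : Finset α) : Prop :=
  (∃ x ∈ X, A l x) ∧ (∃ x ∈ X, ¬ A l x)

open Classical in
/-- The set of lines splitting `X`. -/
noncomputable def splitSet [Fintype β] (A : β → α → Prop) (X : Finset α) : Finset β :=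
  univ.filter (fun l => Splits A l X)

section removal

variable [Fintype α] [Fintype β] [DecidableEq α] [DecidableEq β] (A : β → α → Prop)

omit [Fintype α] [DecidableEq α] [DecidableEq β] in
lemma mem_splitSet {X : Finset α} {l : β} : l ∈ splitSet A X ↔ Splits A l X := by
  classical
  simp [splitSet]

omit [Fintype α] [Fintype β] [DecidableEq α] [DecidableEq β] in
lemma splits_mono {X Y : Finset α} (h : X ⊆ Y) {l : β} (hl : Splits A l X) : Splits A l Y := by
  obtain ⟨⟨x, hx, hx'⟩, ⟨y, hy, hy'⟩⟩ := hl
  exact ⟨⟨x, h hx, hx'⟩, ⟨y, h hy, hy'⟩⟩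

omit [Fintype α] [DecidableEq α] [DecidableEq β] in
lemma splitSet_mono {X Y : Finset α} (h : X ⊆ Y) : splitSet A X ⊆ splitSet A Y := by
  intro l hl
  rw [mem_splitSet] at hl ⊢
  exact splits_mono A h hl

omit [Fintype α] in
lemma splitSet_union {X Y : Finset α} (h : (X ∩ Y).Nonempty) :
    splitSet A (X ∪ Y) ⊆ splitSet A X ∪ splitSet A Y := by
  intro l hl
  rw [mem_union, mem_splitSet, mem_splitSet]
  rw [mem_splitSet] at hl
  obtain ⟨z, hz⟩ := h
  rw [mem_inter] at hz
  obtain ⟨⟨x, hx, hx'⟩, ⟨y, hy, hy'⟩⟩ := hl
  rw [mem_union] at hx hy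
  by_cases hzA : A l z
  · rcases hy with hy | hy
    · left; exact ⟨⟨z, hz.1, hzA⟩, ⟨y, hy, hy'⟩⟩
    · right; exact ⟨⟨z, hz.2, hzA⟩, ⟨y, hy, hy'⟩⟩
  · rcases hx with hx | hx
    · left; exact ⟨⟨x, hx, hx'⟩, ⟨z, hz.1, hzA⟩⟩
    · right; exact ⟨⟨x, hx, hx'⟩, ⟨z, hz.2, hzA⟩⟩

lemma tight_union (hull : ∀ X : Finset α, X.card ≤ (splitSet A X).card + 1)
    {X Y : Finset α} (hX : X.card = (splitSet A X).card + 1)
    (hY : Y.card = (splitSet A Y).card + 1) (h : (X ∩ Y).Nonempty) :
    (X ∪ Y).card = (splitSet A (X ∪ Y)).card + 1 := by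
  have h1 := hull (X ∪ Y)
  have h2 := hull (X ∩ Y)
  have h3 : (splitSet A (X ∪ Y)).card ≤ (splitSet A X ∪ splitSet A Y).card :=
    card_le_card (splitSet_union A h)
  have h4 : (splitSet A (X ∩ Y)).card ≤ (splitSet A X ∩ splitSet A Y).card :=
    card_le_card (subset_inter (splitSet_mono A inter_subset_left)
      (splitSet_mono A inter_subset_right))
  have h5 := card_union_add_card_inter (splitSet A X) (splitSet A Y)
  have h6 := card_union_add_card_inter X Y
  omega

/-- One line can be dropped, keeping the hull condition. -/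
lemma exists_removable (hull : ∀ X : Finset α, X.card ≤ (splitSet A X).card + 1)
    (hcard : Fintype.card α ≤ Fintype.card β) (hne : Nonempty β) :
    ∃ star : β, ∀ X : Finset α, X.card ≤ ((splitSet A X).erase star).card + 1 := by
  classical
  by_contra hcon
  push Not at hcon
  -- every line splits a tight set
  have htight : ∀ l : β, ∃ X : Finset α, X.card = (splitSet A X).card + 1 ∧
      l ∈ splitSet A X := by
    intro l
    obtain ⟨X, hX⟩ := hcon l
    refine ⟨X, ?_, ?_⟩
    · have := hull X
      have h2 : (splitSet A X).card ≤ ((splitSet A X).erase l).card + 1 := by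
        have := Finset.card_erase_add_one (s := splitSet A X) (a := l)
        by_cases hl : l ∈ splitSet A X
        · rw [this hl]
        · rw [erase_eq_of_notMem hl]; omega
      omega
    · by_contra hl
      rw [erase_eq_of_notMem hl] at hX
      have := hull X
      omega
  let T : Finset (Finset α) := univ.filter (fun X => X.card = (splitSet A X).card + 1)
  let M : Finset (Finset α) := T.filter (fun X => ∀ Y ∈ T, X ⊆ Y → X = Y)
  have hMmem : ∀ X, X ∈ M ↔ X.card = (splitSet A X).card + 1 ∧
      ∀ Y : Finset α, Y.card = (splitSet A Y).card + 1 → X ⊆ Y → X = Y := by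
    intro X; simp [M, T]
  -- extension to a maximal tight set
  have hext : ∀ X : Finset α, X.card = (splitSet A X).card + 1 → ∃ Y ∈ M, X ⊆ Y := by
    intro X hX
    obtain ⟨Y, hXY, hY⟩ := (Set.toFinite {Y : Finset α | Y.card = (splitSet A Y).card + 1}).exists_le_maximal
      (a := X) hX
    refine ⟨Y, ?_, hXY⟩
    rw [hMmem]
    refine ⟨hY.1, fun Z hZ hYZ => ?_⟩
    exact le_antisymm hYZ (hY.2 hZ hYZ)
  have hdisj : ∀ X ∈ M, ∀ Y ∈ M, X ≠ Y → Disjoint X Y := by
    intro X hX Y hY hne
    by_contra hd
    rw [Finset.not_disjoint_iff_nonempty_inter] at hd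
    rw [hMmem] at hX hY
    have hu := tight_union A hull hX.1 hY.1 hd
    have h1 := hX.2 _ hu subset_union_left
    have h2 := hY.2 _ hu subset_union_right
    exact hne (h1.trans h2.symm)
  have hcover : (univ : Finset β) ⊆ M.biUnion (fun X => splitSet A X) := by
    intro l _
    obtain ⟨X, hX, hl⟩ := htight l
    obtain ⟨Y, hY, hXY⟩ := hext X hX
    rw [mem_biUnion]
    exact ⟨Y, hY, splitSet_mono A hXY hl⟩
  have h1 : Fintype.card β ≤ ∑ X ∈ M, (splitSet A X).card := by
    calc Fintype.card β = (univ : Finset β).card := (card_univ).symm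
      _ ≤ (M.biUnion (fun X => splitSet A X)).card := card_le_card hcover
      _ ≤ ∑ X ∈ M, (splitSet A X).card := card_biUnion_le
  have h2 : ∑ X ∈ M, X.card ≤ Fintype.card α := by
    have : (M.biUnion (fun X => X)).card = ∑ X ∈ M, X.card := card_biUnion hdisj
    rw [← this]
    exact card_le_univ _
  have h3 : ∑ X ∈ M, X.card = ∑ X ∈ M, (splitSet A X).card + M.card := by
    rw [Finset.card_eq_sum_ones, ← Finset.sum_add_distrib]
    apply Finset.sum_congr rfl
    intro X hX
    rw [hMmem] at hX
    exact hX.1
  have h4 : 0 < M.card := by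
    obtain ⟨l⟩ := hne
    obtain ⟨X, hX, hl⟩ := htight l
    obtain ⟨Y, hY, hXY⟩ := hext X hX
    exact card_pos.mpr ⟨Y, hY⟩
  omega

/-- Hall: the in-matching (and, applied to the complementary relation, the out-matching). -/
lemma exists_matching (star : β)
    (hull : ∀ X : Finset α, X.card ≤ ((splitSet A X).erase star).card + 1)
    (hcard : Fintype.card α = Fintype.card β) :
    ∃ f : β ≃ α, ∀ l, l ≠ star → ¬ A l (f l) := by
  classical
  let t : β → Finset α := fun l => if l = star then univ else univ.filter (fun x => ¬ A l x)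
  have hall : ∀ s : Finset β, s.card ≤ (s.biUnion t).card := by
    intro s
    by_cases hs : star ∈ s
    · have : s.biUnion t = univ := by
        apply eq_univ_of_forall
        intro x
        rw [mem_biUnion]
        exact ⟨star, hs, by simp [t]⟩
      rw [this, card_univ, hcard]
      exact card_le_univ s
    · set Y : Finset α := univ.filter (fun x => ∀ l ∈ s, A l x) with hY
      have h1 : (splitSet A Y).erase star ⊆ univ \ (insert star s) := by
        intro l hl
        rw [mem_erase, mem_splitSet] at hl
        rw [mem_sdiff]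
        refine ⟨mem_univ _, ?_⟩
        intro hl2
        rw [mem_insert] at hl2
        rcases hl2 with rfl | hl2
        · exact hl.1 rfl
        · obtain ⟨_, x, hx, hx'⟩ := hl.2
          rw [hY, mem_filter] at hx
          exact hx' (hx.2 l hl2)
      have h2 := card_le_card h1
      have h3 : (univ \ (insert star s)).card = Fintype.card β - (s.card + 1) := by
        rw [card_sdiff_of_subset (subset_univ _), card_univ, card_insert_of_notMem hs]
      have h4 := hull Y
      have h5 : s.card + 1 ≤ Fintype.card β := by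
        rw [← card_insert_of_notMem hs]; exact card_le_univ _
      have h6 : univ \ Y ⊆ s.biUnion t := by
        intro x hx
        rw [mem_sdiff] at hx
        have hx2 : ¬ ∀ l ∈ s, A l x := by
          intro h
          exact hx.2 (by rw [hY, mem_filter]; exact ⟨mem_univ _, h⟩)
        push Not at hx2
        obtain ⟨l, hl, hlx⟩ := hx2
        rw [mem_biUnion]
        refine ⟨l, hl, ?_⟩
        have : l ≠ star := by rintro rfl; exact hs hl
        simp [t, this, hlx]
      have h7 := card_le_card h6
      have h8 : (univ \ Y).card = Fintype.card α - Y.card := by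
        rw [card_sdiff_of_subset (subset_univ _), card_univ]
      have h9 : Y.card ≤ Fintype.card α := card_le_univ _
      omega
  obtain ⟨f, hfinj, hf⟩ := (Finset.all_card_le_biUnion_card_iff_exists_injective t).mp hall
  have hbij : Function.Bijective f := by
    rw [Fintype.bijective_iff_injective_and_card]
    exact ⟨hfinj, hcard.symm⟩
  refine ⟨Equiv.ofBijective f hbij, ?_⟩
  intro l hl
  have := hf l
  simp only [t, hl, if_false, mem_filter] at this
  simpa using this.2

end removal

section merging

variable [Fintype α] [DecidableEq α] [DecidableEq β] (A : β → α → Prop)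

/-- A pair of assignments: `f l` is the head of `l`, `h l` is the tail of `l`. -/
def Good (star : β) (f h : β ≃ α) : Prop :=
  (∀ l, l ≠ star → ¬ A l (f l)) ∧ (∀ l, l ≠ star → A l (h l))

/-- The successor permutation: a point goes to the head of the line of which it is the tail. -/
def succPerm (f h : β ≃ α) : Equiv.Perm α := h.symm.trans f

omit [Fintype α] [DecidableEq α] [DecidableEq β] in
lemma succPerm_apply (f h : β ≃ α) (l : β) : succPerm f h (h l) = f l := by
  simp [succPerm]

/-- Multiplying by a transposition joins two cycles. -/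
lemma sameCycle_mul_swap (σ : Equiv.Perm α) {u v : α} (huv : ¬ σ.SameCycle u v) :
    ∀ x, (σ.SameCycle u x ∨ σ.SameCycle v x) → (σ * Equiv.swap u v).SameCycle u x := by
  classical
  set τ := σ * Equiv.swap u v with hτ
  have hu : τ u = σ v := by simp [hτ]
  have hv : τ v = σ u := by simp [hτ]
  have hx : ∀ x, x ≠ u → x ≠ v → τ x = σ x := by
    intro x h1 h2
    simp [hτ, Equiv.swap_apply_of_ne_of_ne h1 h2]
  -- step 1: u and v are in the same cycle of τ
  have hne : u ≠ v := by rintro rfl; exact huv (Equiv.Perm.SameCycle.refl _ _)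
  have hper : ∃ m : ℕ, 0 < m ∧ (σ ^ m) v = v := by
    refine ⟨orderOf σ, orderOf_pos σ, ?_⟩
    rw [pow_orderOf_eq_one]; rfl
  classical
  let m := Nat.find hper
  have hm : 0 < m ∧ (σ ^ m) v = v := Nat.find_spec hper
  have hmin : ∀ k, 0 < k → k < m → (σ ^ k) v ≠ v := by
    intro k hk hkm h
    exact Nat.find_min hper hkm ⟨hk, h⟩
  have hiter : ∀ i : ℕ, i < m → (τ ^ (i + 1)) u = (σ ^ (i + 1)) v := by
    intro i
    induction i with
    | zero => intro _; simpa using hu
    | succ i ih =>
      intro hi
      have h1 := ih (by omega)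
      rw [pow_succ' τ, pow_succ' σ, Equiv.Perm.mul_apply, Equiv.Perm.mul_apply, h1]
      apply hx
      · intro h
        apply huv
        have : σ.SameCycle v u := ⟨((i + 1 : ℕ) : ℤ), by rw [zpow_natCast]; exact h⟩
        exact this.symm
      · exact hmin (i + 1) (by omega) hi
  have huvτ : τ.SameCycle u v := by
    refine ⟨((m - 1 + 1 : ℕ) : ℤ), ?_⟩
    rw [zpow_natCast, hiter (m - 1) (by omega)]
    have : m - 1 + 1 = m := by omega
    rw [this]; exact hm.2
  -- step 2: the τ-cycle of u is closed under σ
  have hclosed : ∀ x, τ.SameCycle u x → τ.SameCycle u (σ x) := by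
    intro x hxs
    by_cases h1 : x = u
    · rw [h1, ← hv]
      exact (huvτ.trans (Equiv.Perm.sameCycle_apply_right.mpr (Equiv.Perm.SameCycle.refl _ _)))
    · by_cases h2 : x = v
      · rw [h2, ← hu]
        exact Equiv.Perm.sameCycle_apply_right.mpr (Equiv.Perm.SameCycle.refl _ _)
      · rw [← hx x h1 h2]
        exact Equiv.Perm.sameCycle_apply_right.mpr hxs
  have hclosed' : ∀ (n : ℕ) (x : α), τ.SameCycle u x → τ.SameCycle u ((σ ^ n) x) := by
    intro n
    induction n with
    | zero => intro x hx; simpa using hx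
    | succ n ih =>
      intro x hx
      rw [pow_succ' σ, Equiv.Perm.mul_apply]
      exact hclosed _ (ih x hx)
  have hfin : ∀ a b : α, σ.SameCycle a b → ∃ n : ℕ, (σ ^ n) a = b := by
    intro a b hab
    obtain ⟨n, hn⟩ := hab.exists_nat_pow_eq
    exact ⟨n, hn⟩
  intro x hxs
  rcases hxs with hxs | hxs
  · obtain ⟨n, hn⟩ := hfin u x hxs
    rw [← hn]
    exact hclosed' n u (Equiv.Perm.SameCycle.refl _ _)
  · obtain ⟨n, hn⟩ := hfin v x hxs
    rw [← hn]
    exact hclosed' n v huvτ

omit [Fintype α] in
lemma succPerm_swap_right (f h : β ≃ α) (l l' : β) :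
    succPerm f ((Equiv.swap l l').trans h) = succPerm f h * Equiv.swap (h l) (h l') := by
  ext x
  obtain ⟨m, rfl⟩ := h.surjective x
  simp only [succPerm, Equiv.trans_apply, Equiv.symm_trans_apply, Equiv.symm_apply_apply,
    Equiv.Perm.mul_apply, Equiv.symm_swap]
  congr 1
  by_cases h1 : m = l
  · subst h1; simp
  · by_cases h2 : m = l'
    · subst h2; simp
    · rw [Equiv.swap_apply_of_ne_of_ne h1 h2, Equiv.swap_apply_of_ne_of_ne]
      · simp
      · intro h3; exact h1 (h.injective h3)
      · intro h3; exact h2 (h.injective h3)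

omit [Fintype α] in
lemma succPerm_swap_left (f h : β ≃ α) (l l' : β) :
    succPerm ((Equiv.swap l l').trans f) h = succPerm f h * Equiv.swap (h l) (h l') := by
  ext x
  obtain ⟨m, rfl⟩ := h.surjective x
  simp only [succPerm, Equiv.trans_apply, Equiv.symm_apply_apply, Equiv.Perm.mul_apply]
  by_cases h1 : m = l
  · subst h1; simp
  · by_cases h2 : m = l'
    · subst h2; simp
    · rw [Equiv.swap_apply_of_ne_of_ne h1 h2, Equiv.swap_apply_of_ne_of_ne]
      · simp
      · intro h3; exact h1 (h.injective h3)
      · intro h3; exact h2 (h.injective h3)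

/-- If the cycle of the last point is not everything, some exchange joins it to another cycle. -/
lemma exists_exchange (star : β) (f h : β ≃ α) (hg : Good A star f h) {v : α}
    (hv : ¬ (succPerm f h).SameCycle (h star) v) :
    ∃ (u x : α) (f' h' : β ≃ α), (succPerm f h).SameCycle (h star) u ∧
      (succPerm f h).SameCycle v x ∧ Good A star f' h' ∧
      succPerm f' h' = succPerm f h * Equiv.swap u x ∧ (h' star = h star ∨ h' star = x) := by
  classical
  by_contra hcon
  push Not at hcon
  set σ := succPerm f h with hσ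
  set e := h star with he
  -- labels in the cycle of v are not star
  have hlab : ∀ x, σ.SameCycle v x → h.symm x ≠ star := by
    intro x hx hxs
    apply hv
    have : x = e := by rw [he, ← hxs]; simp
    rw [this] at hx
    exact hx.symm
  have hσlab : ∀ x, σ x = f (h.symm x) := by intro x; simp [hσ, succPerm]
  -- no out-swap
  have hout : ∀ u x, σ.SameCycle e u → σ.SameCycle v x →
      ¬ ((h.symm u ≠ star → A (h.symm u) x) ∧ A (h.symm x) u) := by
    rintro u x hu hx ⟨h1, h2⟩
    have hxs := hlab x hx
    have hne : h.symm u ≠ h.symm x := by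
      intro h3
      apply hv
      have : u = x := h.symm.injective h3
      rw [this] at hu
      exact hu.trans hx.symm
    have hgood : Good A star f ((Equiv.swap (h.symm u) (h.symm x)).trans h) := by
      refine ⟨hg.1, ?_⟩
      intro l hl
      simp only [Equiv.trans_apply]
      by_cases hl1 : l = h.symm u
      · subst hl1
        simp only [Equiv.swap_apply_left, Equiv.apply_symm_apply]
        exact h1 hl
      · by_cases hl2 : l = h.symm x
        · subst hl2
          simp only [Equiv.swap_apply_right, Equiv.apply_symm_apply]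
          exact h2
        · rw [Equiv.swap_apply_of_ne_of_ne hl1 hl2]
          exact hg.2 l hl
    have := hcon u x f _ hu hx hgood (by
      rw [succPerm_swap_right]; simp [hσ])
    apply this.2
    by_contra hne2
    apply this.1
    simp only [Equiv.trans_apply]
    by_cases h5 : star = h.symm u
    · exfalso; apply hne2
      simp [h5]
    · rw [Equiv.swap_apply_of_ne_of_ne h5 (Ne.symm hxs)]
  -- no in-swap
  have hin : ∀ u x, σ.SameCycle e u → σ.SameCycle v x →
      ¬ ((h.symm u ≠ star → ¬ A (h.symm u) (σ x)) ∧ ¬ A (h.symm x) (σ u)) := by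
    rintro u x hu hx ⟨h1, h2⟩
    have hxs := hlab x hx
    have hgood : Good A star ((Equiv.swap (h.symm u) (h.symm x)).trans f) h := by
      refine ⟨?_, hg.2⟩
      intro l hl
      simp only [Equiv.trans_apply]
      by_cases hl1 : l = h.symm u
      · subst hl1
        simp only [Equiv.swap_apply_left]
        rw [← hσlab]
        exact h1 hl
      · by_cases hl2 : l = h.symm x
        · subst hl2
          simp only [Equiv.swap_apply_right]
          rw [← hσlab]
          exact h2
        · rw [Equiv.swap_apply_of_ne_of_ne hl1 hl2]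
          exact hg.1 l hl
    have := hcon u x _ h hu hx hgood (by
      rw [succPerm_swap_left]; simp [hσ])
    exact this.1 rfl
  have hbase : ∀ x, σ.SameCycle v x → A (h.symm x) (σ e) := by
    intro x hx
    by_contra hA
    apply hin e x (Equiv.Perm.SameCycle.refl _ _) hx
    refine ⟨?_, hA⟩
    intro h1
    exfalso; apply h1; simp [he]
  have hstep : ∀ i : ℕ, ∀ x, σ.SameCycle v x → A (h.symm x) ((σ ^ (i + 1)) e) := by
    intro i
    induction i with
    | zero => intro x hx; simpa using hbase x hx
    | succ i ih =>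
      intro x hx
      set u := (σ ^ (i + 1)) e with hu
      have hue : σ.SameCycle e u := ⟨((i + 1 : ℕ) : ℤ), by rw [zpow_natCast]⟩
      rw [pow_succ' σ (i + 1), Equiv.Perm.mul_apply, ← hu]
      by_cases hus : h.symm u = star
      · exfalso
        apply hout u x hue hx
        exact ⟨fun h3 => absurd hus h3, ih x hx⟩
      · by_contra hA
        have hx' : σ.SameCycle v (σ x) := Equiv.Perm.sameCycle_apply_right.mpr hx
        apply hin u x hue hx
        refine ⟨fun _ h4 => ?_, hA⟩
        exact hout u (σ x) hue hx' ⟨fun _ => h4, ih (σ x) hx'⟩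
  -- conclusion
  have hord : (σ ^ (orderOf σ - 1 + 1)) e = e := by
    have : orderOf σ - 1 + 1 = orderOf σ := by
      have := orderOf_pos σ; omega
    rw [this, pow_orderOf_eq_one]; rfl
  have hvv : σ.SameCycle v v := Equiv.Perm.SameCycle.refl _ _
  have h1 := hstep (orderOf σ - 1) v hvv
  rw [hord] at h1
  apply hout e v (Equiv.Perm.SameCycle.refl _ _) hvv
  refine ⟨?_, h1⟩
  intro h2
  exfalso; apply h2; simp [he]

/-- The assignments can be chosen so that the successor permutation is a single cycle. -/
lemma exists_single_cycle [Fintype β] (star : β) (f h : β ≃ α) (hg : Good A star f h) :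
    ∃ f' h' : β ≃ α, Good A star f' h' ∧ ∀ x, (succPerm f' h').SameCycle (h' star) x := by
  classical
  let ι := {p : (β ≃ α) × (β ≃ α) // Good A star p.1 p.2}
  have : Nonempty ι := ⟨⟨(f, h), hg⟩⟩
  let size : ι → ℕ := fun p =>
    (univ.filter (fun x => (succPerm p.1.1 p.1.2).SameCycle (p.1.2 star) x)).card
  obtain ⟨⟨⟨f0, h0⟩, hg0⟩, hmax⟩ := Finite.exists_max size
  refine ⟨f0, h0, hg0, ?_⟩
  by_contra hcon
  push Not at hcon
  obtain ⟨v, hv⟩ := hcon
  obtain ⟨u, x, f', h', hu, hx, hg', hs, he'⟩ := exists_exchange A star f0 h0 hg0 hv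
  have hux : ¬ (succPerm f0 h0).SameCycle u x := by
    intro h1
    exact hv ((hu.trans h1).trans hx.symm)
  have hmerge := sameCycle_mul_swap (succPerm f0 h0) hux
  rw [← hs] at hmerge
  have h1 := hmax ⟨(f', h'), hg'⟩
  simp only [size] at h1
  have he2 : (succPerm f' h').SameCycle u (h' star) := by
    apply hmerge
    rcases he' with h2 | h2
    · left; rw [h2]; exact hu.symm
    · right; rw [h2]
  have h2 : (univ.filter (fun y => (succPerm f0 h0).SameCycle (h0 star) y)) ⊂
      (univ.filter (fun y => (succPerm f' h').SameCycle (h' star) y)) := by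
    rw [Finset.ssubset_iff_of_subset]
    · refine ⟨v, ?_, ?_⟩
      · rw [mem_filter]
        refine ⟨mem_univ _, ?_⟩
        exact he2.symm.trans (hmerge v (Or.inr hx.symm))
      · rw [mem_filter]; intro h3; exact hv h3.2
    · intro y hy
      rw [mem_filter] at hy ⊢
      refine ⟨mem_univ _, ?_⟩
      exact he2.symm.trans (hmerge y (Or.inl (hu.symm.trans hy.2)))
  have h3 := card_lt_card h2
  omega

end merging

/-- Main combinatorial statement: `n` points, `n` lines, hull condition, then an alternating
ordering with `p i` left of `l i` and `p (i+1)` right of `l i`. -/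
theorem exists_alternating [Fintype α] [Fintype β] (A : β → α → Prop) (n : ℕ)
    (hα : Fintype.card α = n) (hβ : Fintype.card β = n)
    (hull : ∀ X : Finset α, X.card ≤ (splitSet A X).card + 1) :
    ∃ (p : Fin n ≃ α) (l : Fin n ≃ β), ∀ (i : ℕ) (hi : i + 1 < n),
      A (l ⟨i, by omega⟩) (p ⟨i, by omega⟩) ∧ ¬ A (l ⟨i, by omega⟩) (p ⟨i + 1, hi⟩) := by
  classical
  rcases Nat.eq_zero_or_pos n with hn | hn
  · subst hn
    exact ⟨(Fintype.equivFinOfCardEq hα).symm, (Fintype.equivFinOfCardEq hβ).symm,
      fun i hi => absurd hi (by omega)⟩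
  have hne : Nonempty β := by
    rw [← Fintype.card_pos_iff, hβ]; exact hn
  obtain ⟨star, hstar⟩ := exists_removable A hull (by omega) hne
  obtain ⟨f, hf⟩ := exists_matching A star hstar (by omega)
  have hstar' : ∀ X : Finset α, X.card ≤ ((splitSet (fun l x => ¬ A l x) X).erase star).card + 1 := by
    intro X
    have : splitSet (fun l x => ¬ A l x) X = splitSet A X := by
      ext l
      rw [mem_splitSet, mem_splitSet]
      unfold Splits
      simp only [not_not]
      exact and_comm
    rw [this]; exact hstar X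
  obtain ⟨h, hh⟩ := exists_matching (fun l x => ¬ A l x) star hstar' (by omega)
  have hg : Good A star f h := ⟨hf, fun l hl => not_not.mp (hh l hl)⟩
  obtain ⟨f', h', hg', hcyc⟩ := exists_single_cycle A star f h hg
  set σ := succPerm f' h' with hσ
  set e := h' star with he
  have hon : σ.IsCycleOn (univ : Finset α) := by
    refine ⟨?_, ?_⟩
    · simp only [coe_univ]
      exact σ.bijective.bijOn_univ
    · intro x _ y _
      exact (hcyc x).symm.trans (hcyc y)
  have hpow : ∀ i j : ℕ, (σ ^ i) e = (σ ^ j) e ↔ i ≡ j [MOD n] := by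
    intro i j
    have := hon.pow_apply_eq_pow_apply (mem_univ e) (m := i) (n := j)
    rw [card_univ, hα] at this
    exact this
  let pf : Fin n → α := fun i => (σ ^ ((i : ℕ) + 1)) e
  have hpinj : Function.Injective pf := by
    intro i j hij
    have h1 : (i : ℕ) + 1 ≡ (j : ℕ) + 1 [MOD n] := (hpow _ _).mp hij
    have h2 : (i : ℕ) ≡ (j : ℕ) [MOD n] := Nat.ModEq.add_right_cancel' 1 h1
    have h3 : (i : ℕ) = (j : ℕ) := by
      have := h2
      unfold Nat.ModEq at this
      rwa [Nat.mod_eq_of_lt i.2, Nat.mod_eq_of_lt j.2] at this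
    exact Fin.ext h3
  have hpbij : Function.Bijective pf := by
    rw [Fintype.bijective_iff_injective_and_card]
    exact ⟨hpinj, by simp [hα]⟩
  let p : Fin n ≃ α := Equiv.ofBijective pf hpbij
  refine ⟨p, p.trans h'.symm, ?_⟩
  intro i hi
  have hp : ∀ j : Fin n, p j = (σ ^ ((j : ℕ) + 1)) e := fun j => rfl
  have hne2 : h'.symm (p ⟨i, by omega⟩) ≠ star := by
    intro h1
    have h2 : p ⟨i, by omega⟩ = e := by rw [he, ← h1]; simp
    rw [hp] at h2
    have h3 : (σ ^ (i + 1)) e = (σ ^ 0) e := by simpa using h2
    rw [hpow] at h3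
    unfold Nat.ModEq at h3
    rw [Nat.mod_eq_of_lt hi] at h3
    simp at h3
  simp only [Equiv.trans_apply]
  constructor
  · have := hg'.2 _ hne2
    simpa using this
  · have h1 := hg'.1 _ hne2
    have h2 : p ⟨i + 1, hi⟩ = σ (p ⟨i, by omega⟩) := by
      rw [hp, hp]
      simp only
      rw [pow_succ' σ (i + 1), Equiv.Perm.mul_apply]
    rw [h2]
    have h3 : σ (p ⟨i, by omega⟩) = f' (h'.symm (p ⟨i, by omega⟩)) := by
      simp [hσ, succPerm]
    rw [h3]
    exact h1

end Pool.Agent.Lib.MP_719c39_co
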